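import Mathlib

namespace Pool.Agent.Q192.FG

open Filter Topology

variable {X : Type*} [TopologicalSpace X]

/-- A flow on `X`: a continuous one-parameter group of homeomorphisms. -/
structure IsFlow (φ : ℝ → X ≃ₜ X) : Prop where
  add : ∀ s t : ℝ, φ (s + t) = φ s * φ t
  cont : Continuous fun p : ℝ × X => φ p.1 p.2

/-- The set of all time-one maps of flows on `X`. -/
def timeOneMaps (X : Type*) [TopologicalSpace X] : Set (X ≃ₜ X) :=
  {f | ∃ φ : ℝ → X ≃ₜ X, IsFlow φ ∧ φ 1 = f}

/-- The group generated by the time-one maps of flows. For a closed surface this is the identity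
component `Homeo₀` of the homeomorphism group. -/
def flowGroup (X : Type*) [TopologicalSpace X] : Subgroup (X ≃ₜ X) :=
  Subgroup.closure (timeOneMaps X)

/-- The flow length of a homeomorphism `h`: the least number of time-one maps of flows whose
product is `h` (meaningful for `h` in `flowGroup X`). -/
noncomputable def flowLength (h : X ≃ₜ X) : ℕ :=
  sInf {n | ∃ l : List (X ≃ₜ X), l.length = n ∧ (∀ s ∈ l, s ∈ timeOneMaps X) ∧ l.prod = h}

/-- The stable flow length of `f` is `c`. -/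
def HasStableFlowLength (f : X ≃ₜ X) (c : ℝ) : Prop :=
  Tendsto (fun n : ℕ => (flowLength (f ^ n) : ℝ) / n) atTop (𝓝 c)

theorem timeOne_inv {s : X ≃ₜ X} (hs : s ∈ timeOneMaps X) : s⁻¹ ∈ timeOneMaps X := by
  obtain ⟨φ, hφ, rfl⟩ := hs
  have h0 : φ 0 = 1 := by
    have := hφ.add 0 0
    rw [add_zero] at this
    exact mul_eq_left.1 this.symm
  refine ⟨fun t => φ (-t), ⟨fun s t => ?_, ?_⟩, ?_⟩
  · rw [← hφ.add]
    congr 1
    ring
  · exact hφ.cont.comp ((continuous_fst.neg).prodMk continuous_snd)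
  · have := hφ.add (-1) 1
    rw [neg_add_cancel, h0] at this
    exact eq_inv_of_mul_eq_one_left this.symm

theorem timeOne_conj {s : X ≃ₜ X} (g : X ≃ₜ X) (hs : s ∈ timeOneMaps X) :
    g * s * g⁻¹ ∈ timeOneMaps X := by
  obtain ⟨φ, hφ, rfl⟩ := hs
  refine ⟨fun t => g * φ t * g⁻¹, ⟨fun s t => ?_, ?_⟩, rfl⟩
  · rw [hφ.add]
    group
  · have h1 : Continuous fun p : ℝ × X => g (φ p.1 (g⁻¹ p.2)) := by
      have h2 : Continuous fun p : ℝ × X => (p.1, g⁻¹ p.2) :=
        continuous_fst.prodMk ((g⁻¹ : X ≃ₜ X).continuous.comp continuous_snd)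
      exact g.continuous.comp (hφ.cont.comp h2)
    exact h1

theorem exists_list {h : X ≃ₜ X} (hh : h ∈ flowGroup X) :
    ∃ l : List (X ≃ₜ X), (∀ s ∈ l, s ∈ timeOneMaps X) ∧ l.prod = h := by
  induction hh using Subgroup.closure_induction with
  | mem x hx => exact ⟨[x], by simpa using hx, by simp⟩
  | one => exact ⟨[], by simp, rfl⟩
  | mul x y _ _ hx hy =>
    obtain ⟨l, hl, rfl⟩ := hx
    obtain ⟨m, hm, rfl⟩ := hy
    exact ⟨l ++ m, by
      intro s hs
      rcases List.mem_append.1 hs with h | h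
      · exact hl s h
      · exact hm s h, by simp⟩
  | inv x _ hx =>
    obtain ⟨l, hl, rfl⟩ := hx
    refine ⟨(l.map (·⁻¹)).reverse, ?_, ?_⟩
    · intro s hs
      rw [List.mem_reverse, List.mem_map] at hs
      obtain ⟨t, ht, rfl⟩ := hs
      exact timeOne_inv (hl t ht)
    · rw [List.prod_inv_reverse]

theorem flowLength_spec {h : X ≃ₜ X} (hh : h ∈ flowGroup X) :
    ∃ l : List (X ≃ₜ X), l.length = flowLength h ∧ (∀ s ∈ l, s ∈ timeOneMaps X) ∧
      l.prod = h := by
  have hne : {n | ∃ l : List (X ≃ₜ X), l.length = n ∧ (∀ s ∈ l, s ∈ timeOneMaps X) ∧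
      l.prod = h}.Nonempty := by
    obtain ⟨l, hl, hl2⟩ := exists_list hh
    exact ⟨l.length, l, rfl, hl, hl2⟩
  exact Nat.sInf_mem hne

theorem flowLength_le {h : X ≃ₜ X} (l : List (X ≃ₜ X)) (hl : ∀ s ∈ l, s ∈ timeOneMaps X)
    (hp : l.prod = h) : flowLength h ≤ l.length :=
  Nat.sInf_le ⟨l, rfl, hl, hp⟩

theorem flowLength_mul {g h : X ≃ₜ X} (hg : g ∈ flowGroup X) (hh : h ∈ flowGroup X) :
    flowLength (g * h) ≤ flowLength g + flowLength h := by
  obtain ⟨l, hl1, hl2, hl3⟩ := flowLength_spec hg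
  obtain ⟨m, hm1, hm2, hm3⟩ := flowLength_spec hh
  have := flowLength_le (h := g * h) (l ++ m) (by
    intro s hs
    rcases List.mem_append.1 hs with h | h
    · exact hl2 s h
    · exact hm2 s h) (by rw [List.prod_append, hl3, hm3])
  rw [List.length_append, hl1, hm1] at this
  exact this

theorem prod_conj (g : X ≃ₜ X) (l : List (X ≃ₜ X)) :
    (l.map fun s => g * s * g⁻¹).prod = g * l.prod * g⁻¹ := by
  induction l with
  | nil => simp
  | cons a t ih =>
    rw [List.map_cons, List.prod_cons, ih, List.prod_cons]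
    group

theorem flowLength_conj (g : X ≃ₜ X) {h : X ≃ₜ X} (hh : h ∈ flowGroup X) :
    flowLength (g * h * g⁻¹) ≤ flowLength h := by
  obtain ⟨l, hl1, hl2, hl3⟩ := flowLength_spec hh
  have := flowLength_le (h := g * h * g⁻¹) (l.map fun s => g * s * g⁻¹) (by
    intro s hs
    obtain ⟨t, ht, rfl⟩ := List.mem_map.1 hs
    exact timeOne_conj g (hl2 t ht)) (by rw [prod_conj, hl3])
  rw [List.length_map, hl1] at this
  exact this

theorem flowLength_inv {h : X ≃ₜ X} (hh : h ∈ flowGroup X) :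
    flowLength h⁻¹ ≤ flowLength h := by
  obtain ⟨l, hl1, hl2, hl3⟩ := flowLength_spec hh
  have := flowLength_le (h := h⁻¹) (l.map (·⁻¹)).reverse (by
    intro s hs
    rw [List.mem_reverse, List.mem_map] at hs
    obtain ⟨t, ht, rfl⟩ := hs
    exact timeOne_inv (hl2 t ht)) (by rw [← List.prod_inv_reverse, hl3])
  rw [List.length_reverse, List.length_map, hl1] at this
  exact this

theorem conj_mem (g : X ≃ₜ X) {h : X ≃ₜ X} (hh : h ∈ flowGroup X) :
    g * h * g⁻¹ ∈ flowGroup X := by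
  obtain ⟨l, hl2, hl3⟩ := exists_list hh
  rw [← hl3, ← prod_conj]
  apply Subgroup.list_prod_mem
  intro s hs
  obtain ⟨t, ht, rfl⟩ := List.mem_map.1 hs
  exact Subgroup.subset_closure (timeOne_conj g (hl2 t ht))

/-- powers with exponent a multiple of `q - p` -/
theorem mult_bound {f h : X ≃ₜ X} {p q : ℤ} (hh : h ∈ flowGroup X)
    (hc : h * f ^ p * h⁻¹ = f ^ q) (k : ℤ) :
    f ^ ((q - p) * k) ∈ flowGroup X ∧ flowLength (f ^ ((q - p) * k)) ≤ 2 * flowLength h := by
  have h1 : h * f ^ (p * k) * h⁻¹ = f ^ (q * k) := by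
    rw [zpow_mul, zpow_mul, ← hc, conj_zpow]
  have key : f ^ ((q - p) * k) = h * (f ^ (p * k) * h⁻¹ * (f ^ (p * k))⁻¹) := by
    calc f ^ ((q - p) * k) = f ^ (q * k) * (f ^ (p * k))⁻¹ := by
          rw [sub_mul, zpow_sub]
      _ = (h * f ^ (p * k) * h⁻¹) * (f ^ (p * k))⁻¹ := by rw [h1]
      _ = _ := by group
  have hi : h⁻¹ ∈ flowGroup X := (flowGroup X).inv_mem hh
  have hm : f ^ (p * k) * h⁻¹ * (f ^ (p * k))⁻¹ ∈ flowGroup X := conj_mem _ hi
  rw [key]
  refine ⟨(flowGroup X).mul_mem hh hm, ?_⟩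
  calc _ ≤ flowLength h + flowLength (f ^ (p * k) * h⁻¹ * (f ^ (p * k))⁻¹) :=
        flowLength_mul hh hm
    _ ≤ flowLength h + flowLength h⁻¹ := by gcongr; exact flowLength_conj _ hi
    _ ≤ flowLength h + flowLength h := by gcongr; exact flowLength_inv hh
    _ = _ := by ring

theorem flowLength_one : flowLength (1 : X ≃ₜ X) = 0 := by
  have := flowLength_le (h := (1 : X ≃ₜ X)) [] (by simp) rfl
  simpa using this

theorem flowLength_pow {f : X ≃ₜ X} (hf : f ∈ flowGroup X) (r : ℕ) :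
    flowLength (f ^ r) ≤ r * flowLength f := by
  induction r with
  | zero => simp [flowLength_one]
  | succ r ih =>
    rw [pow_succ]
    calc _ ≤ flowLength (f ^ r) + flowLength f := flowLength_mul ((flowGroup X).pow_mem hf r) hf
      _ ≤ r * flowLength f + flowLength f := by gcongr
      _ = _ := by ring

theorem pow_bound {f h : X ≃ₜ X} {p q : ℤ} (hpq : p ≠ q) (hf : f ∈ flowGroup X)
    (hh : h ∈ flowGroup X) (hc : h * f ^ p * h⁻¹ = f ^ q) (n : ℕ) :
    flowLength (f ^ n) ≤ (q - p).natAbs * flowLength f + 2 * flowLength h := by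
  set m := (q - p).natAbs with hm
  have hmpos : 0 < m := by
    rw [hm]
    exact Int.natAbs_pos.2 (sub_ne_zero.2 hpq.symm)
  have h1 : ∀ k : ℕ, f ^ (m * k) ∈ flowGroup X ∧ flowLength (f ^ (m * k)) ≤ 2 * flowLength h := by
    intro k
    rcases Int.natAbs_eq (q - p) with h2 | h2
    · have := mult_bound hh hc k
      rw [h2, ← hm] at this
      have e : f ^ ((m : ℤ) * (k : ℤ)) = f ^ (m * k) := by
        rw [← Nat.cast_mul, zpow_natCast]
      rwa [e] at this
    · have := mult_bound hh hc (-k)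
      rw [h2, ← hm] at this
      have e : f ^ (-(m : ℤ) * (-(k : ℤ))) = f ^ (m * k) := by
        rw [neg_mul_neg, ← Nat.cast_mul, zpow_natCast]
      rwa [e] at this
  have h3 : f ^ n = f ^ (n % m) * f ^ (m * (n / m)) := by
    rw [← pow_add, Nat.mod_add_div]
  rw [h3]
  calc _ ≤ flowLength (f ^ (n % m)) + flowLength (f ^ (m * (n / m))) :=
        flowLength_mul ((flowGroup X).pow_mem hf _) (h1 _).1
    _ ≤ (n % m) * flowLength f + 2 * flowLength h := by
        gcongr
        · exact flowLength_pow hf _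
        · exact (h1 _).2
    _ ≤ m * flowLength f + 2 * flowLength h := by
        gcongr
        exact (Nat.mod_lt _ hmpos).le

end Pool.Agent.Q192.FG
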